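import Mathlib

set_option autoImplicit false

namespace Pool.Agent.X105.Thick

open Set Filter Topology

/-- `(p, q)` is a bounded gap of `K`. -/
def IsGap (K : Set ℝ) (p q : ℝ) : Prop :=
  p ∈ K ∧ q ∈ K ∧ p < q ∧ ∀ z, p < z → z < q → z ∉ K

/-- Every bridge is at least `c` times as long as its gap. -/
def ThickC (K : Set ℝ) (c : ℝ) : Prop := ∀ p q, IsGap K p q →
  (∃ v ∈ K, q + c * (q - p) ≤ v ∧
    ∀ p' q', IsGap K p' q' → q ≤ p' → q' ≤ v → q' - p' < q - p) ∧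
  (∃ w ∈ K, w ≤ p - c * (q - p) ∧
    ∀ p' q', IsGap K p' q' → w ≤ p' → q' ≤ p → q' - p' < q - p)

theorem exists_gap {K : Set ℝ} (hK : IsClosed K) {a b z : ℝ} (ha : a ∈ K) (hb : b ∈ K)
    (haz : a ≤ z) (hzb : z ≤ b) (hz : z ∉ K) :
    ∃ p q, IsGap K p q ∧ a ≤ p ∧ p < z ∧ z < q ∧ q ≤ b := by
  have c1 : IsCompact (K ∩ Icc a z) := isCompact_Icc.inter_left hK
  have c2 : IsCompact (K ∩ Icc z b) := isCompact_Icc.inter_left hK
  obtain ⟨p, hp⟩ := c1.exists_isGreatest ⟨a, ha, le_rfl, haz⟩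
  obtain ⟨q, hq⟩ := c2.exists_isLeast ⟨b, hb, hzb, le_rfl⟩
  have hpz : p < z := lt_of_le_of_ne hp.1.2.2 (fun h => hz (h ▸ hp.1.1))
  have hzq : z < q := lt_of_le_of_ne hq.1.2.1 (fun h => hz (h ▸ hq.1.1))
  refine ⟨p, q, ⟨hp.1.1, hq.1.1, hpz.trans hzq, ?_⟩, hp.1.2.1, hpz, hzq, hq.1.2.2⟩
  intro y hpy hyq hy
  rcases le_total y z with h | h
  · exact absurd (hp.2 ⟨hy, hp.1.2.1.trans hpy.le, h⟩) (not_le.2 hpy)
  · exact absurd (hq.2 ⟨hy, h, hyq.le.trans hq.1.2.2⟩) (not_le.2 hyq)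

/-- The data of one step of the construction. -/
structure Cfg (K : Set ℝ) (ψ : ℝ → ℝ) (c α β la q1 g1 g2 p2 rb : ℝ) : Prop where
  closed : IsClosed K
  hc : 1 < c
  hα : 0 < α
  hβ : 0 < β
  hαβ : β < α * c ^ 2
  thick : ThickC K c
  H1 : IsGap K la q1
  G : IsGap K g1 g2
  H2 : IsGap K p2 rb
  q1g : q1 ≤ g1
  gp : g2 ≤ p2
  l1 : g2 - g1 ≤ q1 - la
  l2 : g2 - g1 ≤ rb - p2
  lo : ∀ s t, q1 ≤ s → s ≤ t → t ≤ g1 → α * (t - s) ≤ ψ s - ψ t
  hi : ∀ s t, q1 ≤ s → s ≤ t → t ≤ g1 → ψ s - ψ t ≤ β * (t - s)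

/-- A pair of linked gaps. -/
def St (K : Set ℝ) (ψ : ℝ → ℝ) (q1 g1 g2 p2 u1 u2 v1 v2 : ℝ) : Prop :=
  IsGap K u1 u2 ∧ q1 ≤ u1 ∧ u2 ≤ g1 ∧ u2 - u1 < g2 - g1 ∧
  IsGap K v1 v2 ∧ g2 ≤ v1 ∧ v2 ≤ p2 ∧ v2 - v1 < g2 - g1 ∧
  ((ψ u2 < v1 ∧ v1 < ψ u1 ∧ ψ u1 < v2) ∨ (v1 < ψ u2 ∧ ψ u2 < v2 ∧ v2 < ψ u1))

variable {K : Set ℝ} {ψ : ℝ → ℝ} {c α β la q1 g1 g2 p2 rb : ℝ}

theorem Cfg.anti (C : Cfg K ψ c α β la q1 g1 g2 p2 rb) {s t : ℝ} (hs : q1 ≤ s) (hst : s ≤ t)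
    (ht : t ≤ g1) : ψ t ≤ ψ s := by
  have := C.lo s t hs hst ht
  have h2 : 0 ≤ α * (t - s) := mul_nonneg C.hα.le (by linarith)
  linarith

theorem Cfg.santi (C : Cfg K ψ c α β la q1 g1 g2 p2 rb) {s t : ℝ} (hs : q1 ≤ s) (hst : s < t)
    (ht : t ≤ g1) : ψ t < ψ s := by
  have := C.lo s t hs hst.le ht
  have h2 : 0 < α * (t - s) := mul_pos C.hα (by linarith)
  linarith

theorem Cfg.cont (C : Cfg K ψ c α β la q1 g1 g2 p2 rb) : ContinuousOn ψ (Icc q1 g1) := by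
  have : LipschitzOnWith (Real.toNNReal β) ψ (Icc q1 g1) := by
    apply LipschitzOnWith.of_dist_le_mul
    intro x hx y hy
    rw [Real.coe_toNNReal _ C.hβ.le, Real.dist_eq, Real.dist_eq]
    rcases le_total x y with h | h
    · have h1 := C.hi x y hx.1 h hy.2
      have h2 := C.anti hx.1 h hy.2
      rw [abs_of_nonneg (by linarith), abs_of_nonpos (by linarith)]
      linarith
    · have h1 := C.hi y x hy.1 h hx.2
      have h2 := C.anti hy.1 h hx.2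
      rw [abs_of_nonpos (by linarith), abs_of_nonneg (by linarith)]
      linarith
  exact this.continuousOn

theorem Cfg.ivt (C : Cfg K ψ c α β la q1 g1 g2 p2 rb) {s t y : ℝ} (hs : q1 ≤ s) (hst : s ≤ t)
    (ht : t ≤ g1) (h1' : ψ t ≤ y) (h2' : y ≤ ψ s) : ∃ z, s ≤ z ∧ z ≤ t ∧ ψ z = y := by
  have := intermediate_value_Icc' hst (C.cont.mono (Icc_subset_Icc hs ht))
  obtain ⟨z, hz, e⟩ := this ⟨h1', h2'⟩
  exact ⟨z, hz.1, hz.2, e⟩

/-- Right bridge of a gap on the left side. -/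
theorem Cfg.uR (C : Cfg K ψ c α β la q1 g1 g2 p2 rb) {u1 u2 : ℝ} (hU : IsGap K u1 u2)
    (hu2 : u2 ≤ g1) (hl : u2 - u1 < g2 - g1) :
    ∃ v ∈ K, u2 + c * (u2 - u1) ≤ v ∧ v ≤ g1 ∧
      ∀ p' q', IsGap K p' q' → u2 ≤ p' → q' ≤ v → q' - p' < u2 - u1 := by
  obtain ⟨⟨v, hv, h1, h2⟩, _⟩ := C.thick u1 u2 hU
  refine ⟨v, hv, h1, ?_, h2⟩
  by_contra hlt
  push Not at hlt
  have hv2 : g2 ≤ v := by
    by_contra h
    push Not at h
    exact C.G.2.2.2 v hlt h hv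
  have := h2 g1 g2 C.G hu2 hv2
  linarith

/-- Left bridge of a gap on the left side. -/
theorem Cfg.uL (C : Cfg K ψ c α β la q1 g1 g2 p2 rb) {u1 u2 : ℝ} (hU : IsGap K u1 u2)
    (hu1 : q1 ≤ u1) (hl : u2 - u1 ≤ g2 - g1) :
    ∃ w ∈ K, w ≤ u1 - c * (u2 - u1) ∧ q1 ≤ w ∧
      ∀ p' q', IsGap K p' q' → w ≤ p' → q' ≤ u1 → q' - p' < u2 - u1 := by
  obtain ⟨_, ⟨w, hw, h1, h2⟩⟩ := C.thick u1 u2 hU
  refine ⟨w, hw, h1, ?_, h2⟩
  by_contra hlt
  push Not at hlt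
  have hw2 : w ≤ la := by
    by_contra h
    push Not at h
    exact C.H1.2.2.2 w h hlt hw
  have := h2 _ _ C.H1 hw2 hu1
  linarith [C.l1]

/-- Right bridge of a gap on the right side. -/
theorem Cfg.vR (C : Cfg K ψ c α β la q1 g1 g2 p2 rb) {v1 v2 : ℝ} (hV : IsGap K v1 v2)
    (hv2 : v2 ≤ p2) (hl : v2 - v1 ≤ g2 - g1) :
    ∃ v ∈ K, v2 + c * (v2 - v1) ≤ v ∧ v ≤ p2 ∧
      ∀ p' q', IsGap K p' q' → v2 ≤ p' → q' ≤ v → q' - p' < v2 - v1 := by
  obtain ⟨⟨v, hv, h1, h2⟩, _⟩ := C.thick v1 v2 hV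
  refine ⟨v, hv, h1, ?_, h2⟩
  by_contra hlt
  push Not at hlt
  have hv' : rb ≤ v := by
    by_contra h
    push Not at h
    exact C.H2.2.2.2 v hlt h hv
  have := h2 _ _ C.H2 hv2 hv'
  linarith [C.l2]

/-- Left bridge of a gap on the right side. -/
theorem Cfg.vL (C : Cfg K ψ c α β la q1 g1 g2 p2 rb) {v1 v2 : ℝ} (hV : IsGap K v1 v2)
    (hv1 : g2 ≤ v1) (hl : v2 - v1 < g2 - g1) :
    ∃ w ∈ K, w ≤ v1 - c * (v2 - v1) ∧ g2 ≤ w ∧
      ∀ p' q', IsGap K p' q' → w ≤ p' → q' ≤ v1 → q' - p' < v2 - v1 := by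
  obtain ⟨_, ⟨w, hw, h1, h2⟩⟩ := C.thick v1 v2 hV
  refine ⟨w, hw, h1, ?_, h2⟩
  by_contra hlt
  push Not at hlt
  have hw2 : w ≤ g1 := by
    by_contra h
    push Not at h
    exact C.G.2.2.2 w h hlt hw
  have := h2 _ _ C.G hw2 hv1
  linarith

/-- The two inequalities which contradict the thickness. -/
theorem Cfg.absurd_len (C : Cfg K ψ c α β la q1 g1 g2 p2 rb) {U V : ℝ} (hU : 0 < U)
    (e1 : α * (c * U) < V) (e2 : c * V < β * U) : False := by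
  have hc : 0 < c := by linarith [C.hc]
  have h3 : c * (α * (c * U)) < c * V := mul_lt_mul_of_pos_left e1 hc
  have h4 : α * c ^ 2 * U < β * U := by
    calc α * c ^ 2 * U = c * (α * (c * U)) := by ring
      _ < c * V := h3
      _ < β * U := e2
  have := lt_of_mul_lt_mul_right h4 hU.le
  linarith [C.hαβ]

theorem Cfg.step (C : Cfg K ψ c α β la q1 g1 g2 p2 rb) {u1 u2 v1 v2 : ℝ}
    (no : ∀ a ∈ K, q1 ≤ a → a ≤ g1 → g2 ≤ ψ a → ψ a ≤ p2 → ψ a ∉ K)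
    (S : St K ψ q1 g1 g2 p2 u1 u2 v1 v2) :
    ∃ u1' u2' v1' v2', St K ψ q1 g1 g2 p2 u1' u2' v1' v2' ∧
      (u2' - u1') + (v2' - v1') < (u2 - u1) + (v2 - v1) := by
  obtain ⟨hU, hu1, hu2, hUl, hV, hv1, hv2, hVl, hS⟩ := S
  have hUp : 0 < u2 - u1 := by linarith [hU.2.2.1]
  have hVp : 0 < v2 - v1 := by linarith [hV.2.2.1]
  have hc0 : 0 < c := by linarith [C.hc]
  have hcU : 0 < c * (u2 - u1) := mul_pos hc0 hUp
  have hcV : 0 < c * (v2 - v1) := mul_pos hc0 hVp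
  rcases hS with ⟨r1, r2, r3⟩ | ⟨r1, r2, r3⟩
  · obtain ⟨w, hwK, hw1, hw2, hw3⟩ := C.uL hU hu1 hUl.le
    obtain ⟨y, hyK, hy1, hy2, hy3⟩ := C.vL hV hv1 hVl
    by_cases hcase : v2 ≤ ψ w
    · obtain ⟨z, hz1, hz2, hz3⟩ := C.ivt hw2 (by linarith) (by linarith) r3.le hcase
      by_cases hzK : z ∈ K
      · exact absurd (by rw [hz3]; exact hV.2.1)
          (no z hzK (hw2.trans hz1) (by linarith) (by rw [hz3]; linarith) (by rw [hz3]; exact hv2))
      · obtain ⟨p, q, hg, hp1, hp2, hq1, hq2⟩ := exists_gap C.closed hwK hU.1 hz1 hz2 hzK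
        have hlen := hw3 p q hg hp1 hq2
        refine ⟨p, q, v1, v2, ⟨hg, hw2.trans hp1, by linarith, by linarith, hV, hv1, hv2, hVl,
          Or.inr ⟨?_, ?_, ?_⟩⟩, by linarith⟩
        · exact lt_of_lt_of_le r2 (C.anti (by linarith) hq2 (by linarith))
        · rw [← hz3]; exact C.santi (by linarith) hq1 (by linarith)
        · rw [← hz3]; exact C.santi (by linarith) hp2 (by linarith)
    · push Not at hcase
      have hyu : y ≤ ψ u2 := by
        by_contra hlt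
        push Not at hlt
        have e1 : α * (c * (u2 - u1)) < v2 - v1 := by
          have := C.lo w u1 hw2 (by linarith) (by linarith)
          have h5 : α * (c * (u2 - u1)) ≤ α * (u1 - w) :=
            mul_le_mul_of_nonneg_left (by linarith) C.hα.le
          linarith
        have e2 : c * (v2 - v1) < β * (u2 - u1) := by
          have := C.hi u1 u2 hu1 (by linarith) hu2
          linarith
        exact C.absurd_len hUp e1 e2
      by_cases hzK : ψ u2 ∈ K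
      · exact absurd hzK (no u2 hU.2.1 (by linarith) hu2 (by linarith) (by linarith))
      · obtain ⟨p, q, hg, hp1, hp2, hq1, hq2⟩ := exists_gap C.closed hyK hV.1 hyu r1.le hzK
        have hlen := hy3 p q hg hp1 hq2
        exact ⟨u1, u2, p, q, ⟨hU, hu1, hu2, hUl, hg, by linarith, by linarith, by linarith,
          Or.inr ⟨hp2, hq1, by linarith⟩⟩, by linarith⟩
  · obtain ⟨w, hwK, hw1, hw2, hw3⟩ := C.uR hU hu2 hUl
    obtain ⟨y, hyK, hy1, hy2, hy3⟩ := C.vR hV hv2 hVl.le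
    by_cases hcase : ψ w ≤ v1
    · obtain ⟨z, hz1, hz2, hz3⟩ := C.ivt (by linarith : q1 ≤ u2) (by linarith) hw2 hcase r1.le
      by_cases hzK : z ∈ K
      · exact absurd (by rw [hz3]; exact hV.1)
          (no z hzK (by linarith) (by linarith) (by rw [hz3]; linarith) (by rw [hz3]; linarith))
      · obtain ⟨p, q, hg, hp1, hp2, hq1, hq2⟩ := exists_gap C.closed hU.2.1 hwK hz1 hz2 hzK
        have hlen := hw3 p q hg hp1 hq2
        refine ⟨p, q, v1, v2, ⟨hg, by linarith, by linarith, by linarith, hV, hv1, hv2, hVl,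
          Or.inl ⟨?_, ?_, ?_⟩⟩, by linarith⟩
        · rw [← hz3]; exact C.santi (by linarith) hq1 (by linarith)
        · rw [← hz3]; exact C.santi (by linarith) hp2 (by linarith)
        · exact lt_of_le_of_lt (C.anti (by linarith) hp1 (by linarith)) r2
    · push Not at hcase
      have hyu : ψ u1 ≤ y := by
        by_contra hlt
        push Not at hlt
        have e1 : α * (c * (u2 - u1)) < v2 - v1 := by
          have := C.lo u2 w (by linarith) (by linarith) hw2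
          have h5 : α * (c * (u2 - u1)) ≤ α * (w - u2) :=
            mul_le_mul_of_nonneg_left (by linarith) C.hα.le
          linarith
        have e2 : c * (v2 - v1) < β * (u2 - u1) := by
          have := C.hi u1 u2 hu1 (by linarith) hu2
          linarith
        exact C.absurd_len hUp e1 e2
      by_cases hzK : ψ u1 ∈ K
      · exact absurd hzK (no u1 hU.1 hu1 (by linarith) (by linarith) (by linarith))
      · obtain ⟨p, q, hg, hp1, hp2, hq1, hq2⟩ := exists_gap C.closed hV.2.1 hyK r3.le hyu hzK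
        have hlen := hy3 p q hg hp1 hq2
        exact ⟨u1, u2, p, q, ⟨hU, hu1, hu2, hUl, hg, by linarith, by linarith, by linarith,
          Or.inl ⟨by linarith, hp2, hq1⟩⟩, by linarith⟩

/-- Only finitely many gaps in a bounded interval have length at least `δ`. -/
theorem finite_gaps (K : Set ℝ) (A B δ : ℝ) (hδ : 0 < δ) :
    {g : ℝ × ℝ | IsGap K g.1 g.2 ∧ A ≤ g.1 ∧ g.2 ≤ B ∧ δ ≤ g.2 - g.1}.Finite := by
  apply Set.Finite.of_injOn (f := fun g : ℝ × ℝ => ⌊g.1 / δ⌋)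
    (t := Set.Icc ⌊A / δ⌋ ⌊B / δ⌋) _ _ (Set.finite_Icc _ _)
  · intro g hg
    refine ⟨Int.floor_le_floor (by gcongr; exact hg.2.1), Int.floor_le_floor ?_⟩
    have := hg.2.2.1
    have h3 := hg.1.2.2.1
    gcongr
    linarith
  · have key : ∀ g g' : ℝ × ℝ, IsGap K g.1 g.2 → δ ≤ g.2 - g.1 → IsGap K g'.1 g'.2 →
        g.1 < g'.1 → ⌊g.1 / δ⌋ < ⌊g'.1 / δ⌋ := by
      intro g g' hg hl hg' hlt
      have h1 : g.2 ≤ g'.1 := by
        by_contra h
        push Not at h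
        exact hg.2.2.2 _ hlt h hg'.1
      have h2 : g.1 / δ + 1 ≤ g'.1 / δ := by
        rw [div_add_one hδ.ne', div_le_div_iff_of_pos_right hδ]
        linarith
      have h3 : ⌊g.1 / δ⌋ + 1 ≤ ⌊g'.1 / δ⌋ := by
        rw [← Int.floor_add_one]
        exact Int.floor_le_floor h2
      omega
    intro g hg g' hg' e
    simp only at e
    rcases lt_trichotomy g.1 g'.1 with h | h | h
    · exact absurd e (key g g' hg.1 hg.2.2.2 hg'.1 h).ne
    · refine Prod.ext h ?_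
      rcases lt_trichotomy g.2 g'.2 with h' | h' | h'
      · exact absurd hg.1.2.1 (hg'.1.2.2.2 _ (h ▸ hg.1.2.2.1) h')
      · exact h'
      · exact absurd hg'.1.2.1 (hg.1.2.2.2 _ (h ▸ hg'.1.2.2.1) h')
    · exact absurd e.symm (key g' g hg'.1 hg'.2.2.2 hg.1 h).ne

/-- There is no linked pair if there is no solution. -/
theorem Cfg.noState (C : Cfg K ψ c α β la q1 g1 g2 p2 rb)
    (no : ∀ a ∈ K, q1 ≤ a → a ≤ g1 → g2 ≤ ψ a → ψ a ≤ p2 → ψ a ∉ K)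
    {u1 u2 v1 v2 : ℝ} (S : St K ψ q1 g1 g2 p2 u1 u2 v1 v2) : False := by
  -- the distance of the two compact sets
  have cA : IsCompact ((K ∩ Icc q1 g1) ×ˢ (K ∩ Icc g2 p2)) :=
    (isCompact_Icc.inter_left C.closed).prod (isCompact_Icc.inter_left C.closed)
  have neA : ((K ∩ Icc q1 g1) ×ˢ (K ∩ Icc g2 p2)).Nonempty :=
    ⟨(g1, g2), ⟨C.G.1, C.q1g, le_rfl⟩, ⟨C.G.2.1, le_rfl, C.gp⟩⟩
  have cf : ContinuousOn (fun x : ℝ × ℝ => |ψ x.1 - x.2|)
      ((K ∩ Icc q1 g1) ×ˢ (K ∩ Icc g2 p2)) := by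
    apply ContinuousOn.abs
    apply ContinuousOn.sub
    · exact C.cont.comp continuousOn_fst (fun x hx => hx.1.2)
    · exact continuousOn_snd
  obtain ⟨m, hm, hmin⟩ := cA.exists_isMinOn neA cf
  set δ : ℝ := |ψ m.1 - m.2| with hδ
  have hδpos : 0 < δ := by
    apply abs_pos.2
    intro h
    have e : ψ m.1 = m.2 := by linarith
    exact no m.1 hm.1.1 hm.1.2.1 hm.1.2.2 (by rw [e]; exact hm.2.2.1)
      (by rw [e]; exact hm.2.2.2) (by rw [e]; exact hm.2.1)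
  have hdist : ∀ a ∈ K, q1 ≤ a → a ≤ g1 → ∀ b ∈ K, g2 ≤ b → b ≤ p2 → δ ≤ |ψ a - b| := by
    intro a ha h1 h2 b hb h3 h4
    exact hmin (show (a, b) ∈ _ from ⟨⟨ha, h1, h2⟩, ⟨hb, h3, h4⟩⟩)
  -- lengths in a state
  set δ' : ℝ := min δ (δ / β) with hδ'
  have hδ'pos : 0 < δ' := lt_min hδpos (div_pos hδpos C.hβ)
  have hlen : ∀ u1 u2 v1 v2, St K ψ q1 g1 g2 p2 u1 u2 v1 v2 →
      δ' ≤ u2 - u1 ∧ δ' ≤ v2 - v1 := by
    rintro u1 u2 v1 v2 ⟨hU, hu1, hu2, hUl, hV, hv1, hv2, hVl, hS⟩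
    have hUp := hU.2.2.1
    have hVp := hV.2.2.1
    have hhi := C.hi u1 u2 hu1 hUp.le hu2
    have key : ∀ d : ℝ, δ ≤ d → d ≤ β * (u2 - u1) → δ' ≤ u2 - u1 := by
      intro d h1 h2
      refine (min_le_right _ _).trans ?_
      rw [div_le_iff₀ C.hβ]
      linarith
    rcases hS with ⟨r1, r2, r3⟩ | ⟨r1, r2, r3⟩
    · have := hdist u1 hU.1 hu1 (by linarith) v1 hV.1 hv1 (by linarith)
      rw [abs_of_pos (by linarith)] at this
      exact ⟨key _ this (by linarith), (min_le_left _ _).trans (by linarith)⟩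
    · have := hdist u2 hU.2.1 (by linarith) hu2 v2 hV.2.1 (by linarith) hv2
      rw [abs_of_neg (by linarith)] at this
      exact ⟨key _ this (by linarith), (min_le_left _ _).trans (by linarith)⟩
  -- finiteness
  let T : Set ((ℝ × ℝ) × (ℝ × ℝ)) := {s | St K ψ q1 g1 g2 p2 s.1.1 s.1.2 s.2.1 s.2.2}
  have hTfin : T.Finite := by
    apply ((finite_gaps K q1 p2 δ' hδ'pos).prod (finite_gaps K q1 p2 δ' hδ'pos)).subset
    rintro ⟨⟨a, b⟩, ⟨a', b'⟩⟩ hs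
    have hl := hlen _ _ _ _ hs
    obtain ⟨hU, hu1, hu2, hUl, hV, hv1, hv2, hVl, hS⟩ := hs
    have := C.G.2.2.1
    have := C.gp
    have := C.q1g
    exact ⟨⟨hU, hu1, by simp only at hu2 ⊢; linarith, hl.1⟩,
      ⟨hV, by simp only at hv1 ⊢; linarith, hv2, hl.2⟩⟩
  have hTne : T.Nonempty := ⟨((u1, u2), (v1, v2)), S⟩
  obtain ⟨s, hs, hsmin⟩ := hTfin.exists_minimalFor
    (fun s : (ℝ × ℝ) × (ℝ × ℝ) => (s.1.2 - s.1.1) + (s.2.2 - s.2.1)) T hTne
  obtain ⟨a, b, a', b', hs', hlt⟩ := C.step no hs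
  have := hsmin (show ((a, b), (a', b')) ∈ T from hs') (by simpa using hlt.le)
  simp only at this
  linarith

theorem Cfg.startA (C : Cfg K ψ c α β la q1 g1 g2 p2 rb) (hg : ψ g1 = g1) (hαc : 1 < α * c)
    (no : ∀ a ∈ K, q1 ≤ a → a ≤ g1 → g2 ≤ ψ a → ψ a ≤ p2 → ψ a ∉ K) : False := by
  have hl : 0 < g2 - g1 := by linarith [C.G.2.2.1]
  have hc0 : 0 < c := by linarith [C.hc]
  have hcl : 0 < c * (g2 - g1) := mul_pos hc0 hl
  obtain ⟨v, hvK, hv1, hv2, hv3⟩ := C.vR C.G C.gp le_rfl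
  obtain ⟨w, hwK, hw1, hw2, hw3⟩ := C.uL C.G C.q1g le_rfl
  have hψw : g2 ≤ ψ w := by
    have h1 := C.lo w g1 hw2 (by linarith) le_rfl
    have h2 : α * (c * (g2 - g1)) ≤ α * (g1 - w) :=
      mul_le_mul_of_nonneg_left (by linarith) C.hα.le
    have h3 : 1 * (g2 - g1) ≤ α * c * (g2 - g1) := mul_le_mul_of_nonneg_right hαc.le hl.le
    nlinarith
  obtain ⟨z, hz1, hz2, hz3⟩ := C.ivt hw2 (by linarith) le_rfl (by rw [hg]; linarith) hψw
  by_cases hzK : z ∈ K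
  · exact absurd (by rw [hz3]; exact C.G.2.1)
      (no z hzK (hw2.trans hz1) hz2 hz3.ge (by rw [hz3]; exact C.gp))
  obtain ⟨p, q, hgap, hp1, hp2, hq1, hq2⟩ := exists_gap C.closed hwK C.G.1 hz1 hz2 hzK
  have hlen := hw3 p q hgap hp1 hq2
  have hψq : ψ q < g2 := by rw [← hz3]; exact C.santi (by linarith) hq1 hq2
  have hψp : g2 < ψ p := by rw [← hz3]; exact C.santi (by linarith) hp2 (by linarith)
  have hpq : 0 < q - p := by linarith
  have hshort : β * (q - p) < c * (g2 - g1) := by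
    by_contra hcon
    push Not at hcon
    obtain ⟨x, hxK, hx1, hx2, hx3⟩ := C.uR hgap hq2 hlen
    have hcq : 0 < c * (q - p) := mul_pos hc0 hpq
    have h1 := C.lo q x (by linarith) (by linarith) hx2
    have h2 := C.anti (by linarith : q1 ≤ x) hx2 le_rfl
    have h3 : α * (c * (q - p)) ≤ α * (x - q) :=
      mul_le_mul_of_nonneg_left (by linarith) C.hα.le
    have h4 : α * (c * (q - p)) < g2 - g1 := by linarith
    -- `α c ^ 2 (g2 - g1) ≤ α c β (q - p) < β (g2 - g1)`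
    have h5 : α * c * (c * (g2 - g1)) ≤ α * c * (β * (q - p)) :=
      mul_le_mul_of_nonneg_left hcon (by linarith)
    have h6 : β * (α * (c * (q - p))) < β * (g2 - g1) := mul_lt_mul_of_pos_left h4 C.hβ
    have h7 : α * c ^ 2 * (g2 - g1) < β * (g2 - g1) := by
      calc α * c ^ 2 * (g2 - g1) = α * c * (c * (g2 - g1)) := by ring
        _ ≤ α * c * (β * (q - p)) := h5
        _ = β * (α * (c * (q - p))) := by ring
        _ < β * (g2 - g1) := h6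
    have := lt_of_mul_lt_mul_right h7 hl.le
    linarith [C.hαβ]
  have hψpv : ψ p ≤ v := by
    have := C.hi p q (by linarith) (by linarith) hq2
    linarith
  by_cases hzK' : ψ p ∈ K
  · exact absurd hzK' (no p hgap.1 (by linarith) (by linarith) hψp.le (by linarith))
  obtain ⟨p', q', hgap', hp1', hp2', hq1', hq2'⟩ :=
    exists_gap C.closed C.G.2.1 hvK hψp.le hψpv hzK'
  have hlen' := hv3 p' q' hgap' hp1' hq2'
  exact C.noState no (u1 := p) (u2 := q) (v1 := p') (v2 := q')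
    ⟨hgap, by linarith, hq2, hlen, hgap', hp1', by linarith, hlen',
      Or.inl ⟨by linarith, hp2', hq1'⟩⟩

theorem Cfg.startB (C : Cfg K ψ c α β la q1 g1 g2 p2 rb) (hg : g2 < ψ g1)
    (hg' : ψ g1 ≤ g2 + β * (g2 - g1)) (hβc : β ≤ c)
    (no : ∀ a ∈ K, q1 ≤ a → a ≤ g1 → g2 ≤ ψ a → ψ a ≤ p2 → ψ a ∉ K) : False := by
  have hl : 0 < g2 - g1 := by linarith [C.G.2.2.1]
  have hc0 : 0 < c := by linarith [C.hc]
  have hcl : 0 < c * (g2 - g1) := mul_pos hc0 hl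
  have hβl : β * (g2 - g1) ≤ c * (g2 - g1) := mul_le_mul_of_nonneg_right hβc hl.le
  obtain ⟨v, hvK, hv1, hv2, hv3⟩ := C.vR C.G C.gp le_rfl
  obtain ⟨w, hwK, hw1, hw2, hw3⟩ := C.uL C.G C.q1g le_rfl
  by_cases hzK : ψ g1 ∈ K
  · exact absurd hzK (no g1 C.G.1 C.q1g le_rfl hg.le (by linarith))
  obtain ⟨v1, v2, hV, hv1', hv1'', hv2', hv2''⟩ :=
    exists_gap C.closed C.G.2.1 hvK hg.le (by linarith) hzK
  have hVl := hv3 v1 v2 hV hv1' hv2''
  have hψw : v2 ≤ ψ w := by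
    by_contra hlt
    push Not at hlt
    obtain ⟨y, hyK, hy1, hy2, hy3⟩ := C.vL hV hv1' hVl
    have e1 : α * (c * (g2 - g1)) < v2 - v1 := by
      have := C.lo w g1 hw2 (by linarith) le_rfl
      have h5 : α * (c * (g2 - g1)) ≤ α * (g1 - w) :=
        mul_le_mul_of_nonneg_left (by linarith) C.hα.le
      linarith
    exact C.absurd_len hl e1 (by linarith)
  obtain ⟨z, hz1, hz2, hz3⟩ := C.ivt hw2 (by linarith) le_rfl hv2'.le hψw
  by_cases hzK' : z ∈ K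
  · exact absurd (by rw [hz3]; exact hV.2.1)
      (no z hzK' (hw2.trans hz1) hz2 (by rw [hz3]; linarith) (by rw [hz3]; linarith))
  obtain ⟨p, q, hgap, hp1, hp2, hq1, hq2⟩ := exists_gap C.closed hwK C.G.1 hz1 hz2 hzK'
  have hlen := hw3 p q hgap hp1 hq2
  refine C.noState no (u1 := p) (u2 := q) (v1 := v1) (v2 := v2)
    ⟨hgap, by linarith, hq2, hlen, hV, hv1', by linarith, hVl, Or.inr ⟨?_, ?_, ?_⟩⟩
  · exact lt_of_lt_of_le hv1'' (C.anti (by linarith) hq2 le_rfl)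
  · rw [← hz3]; exact C.santi (by linarith) hq1 hq2
  · rw [← hz3]; exact C.santi (by linarith) hp2 (by linarith)

end Pool.Agent.X105.Thick
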